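import Pool.Agent.R765.BallCone

/-!
# Cone monotone homeomorphisms of closed smooth 4-manifolds

By Freedman, closed smooth simply connected 4-manifolds `M`, `N` with isomorphic intersection forms
are homeomorphic; the question is which of them are diffeomorphic. Let `g : M → N` be a homeomorphism
of closed smooth 4-manifolds such that at every point `x` the map `g` is a local diffeomorphism or
cone monotone: in smooth coordinates around `x` and around `g x`, for every direction `v` the
increments of `g` in the directions near `v` lie in a proper cone (a cone `r ‖w‖ < ℓ w` with `r > 0`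
and a linear functional `ℓ`). Then `M` and `N` are diffeomorphic, by a diffeomorphism with graph in a
given neighbourhood of the graph of `g`.

The condition does not depend on the coordinates, and it allows points at which `g` is not
differentiable; nothing is assumed about the set of these points (in particular it need not be mapped
into one chart).
-/

set_option autoImplicit false

open Set Filter Topology Metric Function
open scoped Manifold ContDiff

noncomputable section

namespace Pool.Agent.Results.MP_cb9bff_gt.ConeMonotone

/-- `ℝ⁴` -/
abbrev R4 : Type := EuclideanSpace ℝ (Fin 4)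

/-- `M` (a space with an atlas of charts with values in `ℝ⁴`) is a closed smooth 4-manifold -/
structure ClosedSmooth (M : Type) [TopologicalSpace M] [ChartedSpace R4 M] : Prop where
  smooth : IsManifold (𝓡 4) ∞ M
  hausdorff : T2Space M
  compact : CompactSpace M

section defs

variable {M N : Type} [TopologicalSpace M] [TopologicalSpace N] [ChartedSpace R4 M]
  [ChartedSpace R4 N]

/-- `f` is a local diffeomorphism (of class `C^∞`, with smooth inverse) at `x` -/
def LocDiff (f : M → N) (x : M) : Prop := IsLocalDiffeomorphAt (𝓡 4) (𝓡 4) ∞ f x

/-- For every direction `v` the increments of `h` near `0` in the directions near `v` lie in a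
proper cone: there are `r > 0` and a linear functional `ℓ` with `r ‖h q - h p‖ < ℓ (h q - h p)` for
all `p`, `q` in the ball of radius `r` about `0` such that `‖q - p - t v‖ ≤ r t` for some
`t > 0`. -/
def ConeIncrements (h : R4 → R4) : Prop :=
  ∀ v : R4, v ≠ 0 → ∃ (r : ℝ) (ℓ : R4 →L[ℝ] ℝ), 0 < r ∧ ∀ p q : R4, ‖p‖ ≤ r → ‖q‖ ≤ r →
    ∀ t : ℝ, 0 < t → ‖q - p - t • v‖ ≤ r * t → r * ‖h q - h p‖ < ℓ (h q - h p)

/-- `f` is cone monotone at `x`: it has increments in proper cones in some smooth coordinates
around `x = A 0` and around `f x` (`A` is a smooth parametrization around `x`, `B` a smooth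
coordinate system around `f x`). -/
def ConeMonotone (f : M → N) (x : M) : Prop :=
  ∃ (A : R4 → M) (B : N → R4), A 0 = x ∧ LocDiff A 0 ∧ LocDiff B (f x) ∧
    ConeIncrements fun p => B (f (A p))

end defs

theorem result (M N : Type) [TopologicalSpace M] [TopologicalSpace N]
    [ChartedSpace R4 M] [ChartedSpace R4 N] (hM : ClosedSmooth M) (hN : ClosedSmooth N)
    (g : M ≃ₜ N) (hg : ∀ x, LocDiff g x ∨ ConeMonotone g x)
    (O : Set (M × N)) (hO : IsOpen O) (hgO : ∀ x, (x, g x) ∈ O) :
    ∃ Φ : Diffeomorph (𝓡 4) (𝓡 4) M N ∞, ∀ x, (x, Φ x) ∈ O := by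
  have := hM.smooth
  have := hM.hausdorff
  have := hM.compact
  have := hN.smooth
  refine Pool.Agent.R765.coneMonotoneClosed 4 M N g (fun x => ?_) O hO hgO
  rcases hg x with h | ⟨A, B, h1, h2, h3, h4⟩
  · exact Or.inl h
  · exact Or.inr ⟨B, h3, A, h1, h2, h4⟩

end Pool.Agent.Results.MP_cb9bff_gt.ConeMonotone
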