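import Pool.Agent.R765.ClosedCO
import Pool.Agent.R765.BallCone

/-!
# Homeomorphisms generated by cone monotone ones and smooth ones of corank at most one

By Freedman, closed smooth simply connected 4-manifolds with isomorphic intersection forms are
homeomorphic; the question is which of them are diffeomorphic. We consider the least class of
homeomorphisms between closed smooth 4-manifolds which contains

* the smooth homeomorphisms (with an inverse which need not be differentiable) whose derivative has
  rank at least three everywhere,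
* the homeomorphisms which are at every point a local diffeomorphism or cone monotone,

and which is closed under inverses, compositions and limits (a homeomorphism `g` belongs to the class
if every neighbourhood of its graph contains the graph of a member of the class). The members of the
class are exactly the limits of diffeomorphisms. So two closed smooth 4-manifolds which are related by
a member of the class are diffeomorphic.
-/

set_option autoImplicit false

open Set Filter Topology Metric Function
open scoped Manifold ContDiff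

noncomputable section

namespace Pool.Agent.Results.MP_cb9bff_gt.GeneratedClass

/-- `ℝ⁴` -/
abbrev R4 : Type := EuclideanSpace ℝ (Fin 4)

/-- closed smooth 4-manifolds -/
structure Closed4 where
  /-- the set of points -/
  pts : Type
  [top : TopologicalSpace pts]
  [chart : ChartedSpace R4 pts]
  smooth : IsManifold (𝓡 4) ∞ pts
  hausdorff : T2Space pts
  compact : CompactSpace pts

instance : CoeSort Closed4 Type := ⟨Closed4.pts⟩

instance (M : Closed4) : TopologicalSpace M := M.top

instance (M : Closed4) : ChartedSpace R4 M := M.chart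

section defs

variable {M N : Type} [TopologicalSpace M] [TopologicalSpace N] [ChartedSpace R4 M]
  [ChartedSpace R4 N]

/-- `f` is a map of class `C^∞` -/
def Smooth (f : M → N) : Prop := ContMDiff (𝓡 4) (𝓡 4) ∞ f

/-- the derivative of `f` at `x`, as a linear map from `ℝ⁴` to `ℝ⁴` (in the preferred charts) -/
def der (f : M → N) (x : M) : R4 →L[ℝ] R4 := mfderiv (𝓡 4) (𝓡 4) f x

/-- the rank of a linear map -/
def rank (L : R4 →L[ℝ] R4) : ℕ := Module.finrank ℝ (LinearMap.range L.toLinearMap)

/-- `f` is a local diffeomorphism (of class `C^∞`, with smooth inverse) at `x` -/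
def LocDiff (f : M → N) (x : M) : Prop := IsLocalDiffeomorphAt (𝓡 4) (𝓡 4) ∞ f x

/-- For every direction `v` the increments of `h` near `0` in the directions near `v` lie in a
proper cone: there are `r > 0` and a linear functional `ℓ` with `r ‖h q - h p‖ < ℓ (h q - h p)` for
all `p`, `q` in the ball of radius `r` about `0` such that `‖q - p - t v‖ ≤ r t` for some
`t > 0`. -/
def ConeIncrements (h : R4 → R4) : Prop :=
  ∀ v : R4, v ≠ 0 → ∃ (r : ℝ) (ℓ : R4 →L[ℝ] ℝ), 0 < r ∧ ∀ p q : R4, ‖p‖ ≤ r → ‖q‖ ≤ r →
    ∀ t : ℝ, 0 < t → ‖q - p - t • v‖ ≤ r * t → r * ‖h q - h p‖ < ℓ (h q - h p)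

/-- `f` is cone monotone at `x`: it has increments in proper cones in some smooth coordinates
around `x = A 0` and around `f x` (`A` is a smooth parametrization around `x`, `B` a smooth
coordinate system around `f x`). -/
def ConeMonotone (f : M → N) (x : M) : Prop :=
  ∃ (A : R4 → M) (B : N → R4), A 0 = x ∧ LocDiff A 0 ∧ LocDiff B (f x) ∧
    ConeIncrements fun p => B (f (A p))

/-- the graph of `f` is contained in `O` -/
def GraphIn (f : M → N) (O : Set (M × N)) : Prop := ∀ x, (x, f x) ∈ O

end defs

/-- The least class of homeomorphisms of closed smooth 4-manifolds which contains the smooth ones with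
derivatives of rank at least three and those which are everywhere local diffeomorphisms or cone
monotone, and which is closed under inverses, compositions and limits. -/
inductive Tame : (M N : Closed4) → (M ≃ₜ N) → Prop
  | corankOne {M N : Closed4} (g : M ≃ₜ N) :
      Smooth g → (∀ x, 3 ≤ rank (der g x)) → Tame M N g
  | coneMonotone {M N : Closed4} (g : M ≃ₜ N) :
      (∀ x, LocDiff g x ∨ ConeMonotone g x) → Tame M N g
  | inverse {M N : Closed4} (g : M ≃ₜ N) : Tame M N g → Tame N M g.symm
  | composition {M N P : Closed4} (g : M ≃ₜ N) (h : N ≃ₜ P) :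
      Tame M N g → Tame N P h → Tame M P (g.trans h)
  | limit {M N : Closed4} (g : M ≃ₜ N) (h : Set (M × N) → (M ≃ₜ N)) :
      (∀ O, IsOpen O → GraphIn g O → GraphIn (h O) O) →
      (∀ O, IsOpen O → GraphIn g O → Tame M N (h O)) → Tame M N g

/-- `g` is a limit of diffeomorphisms: every open neighbourhood of its graph contains the graph of a
diffeomorphism. -/
def LimitOfDiffeomorphisms (M N : Closed4) (g : M ≃ₜ N) : Prop :=
  ∀ O : Set (M × N), IsOpen O → GraphIn g O →
    ∃ Φ : Diffeomorph (𝓡 4) (𝓡 4) M N ∞, GraphIn Φ O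

theorem limit_symm {M N : Closed4} (g : M ≃ₜ N) (hg : LimitOfDiffeomorphisms M N g) :
    LimitOfDiffeomorphisms N M g.symm := by
  intro O hO hgO
  obtain ⟨Φ, hΦ⟩ := hg (Prod.swap ⁻¹' O) (hO.preimage continuous_swap) (fun x => by
    have := hgO (g x)
    rw [g.symm_apply_apply] at this
    exact this)
  refine ⟨Φ.symm, fun y => ?_⟩
  have := hΦ (Φ.symm y)
  rw [Φ.apply_symm_apply] at this
  exact this

theorem limit_trans {M N P : Closed4} (g : M ≃ₜ N) (h : N ≃ₜ P)
    (hg : LimitOfDiffeomorphisms M N g) (hh : LimitOfDiffeomorphisms N P h) :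
    LimitOfDiffeomorphisms M P (g.trans h) := by
  intro O hO hgO
  have c1 : Continuous fun z : N × P => ((g.symm z.1, z.2) : M × P) :=
    (g.symm.continuous.comp continuous_fst).prodMk continuous_snd
  obtain ⟨Ψ, hΨ⟩ := hh ((fun z : N × P => ((g.symm z.1, z.2) : M × P)) ⁻¹' O) (hO.preimage c1)
    (fun y => by
      have := hgO (g.symm y)
      rw [Homeomorph.trans_apply, g.apply_symm_apply] at this
      exact this)
  have c2 : Continuous fun z : M × N => ((z.1, Ψ z.2) : M × P) :=
    continuous_fst.prodMk (Ψ.continuous.comp continuous_snd)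
  obtain ⟨Φ, hΦ⟩ := hg ((fun z : M × N => ((z.1, Ψ z.2) : M × P)) ⁻¹' O) (hO.preimage c2)
    (fun x => by
      have := hΨ (g x)
      simp only [mem_preimage, g.symm_apply_apply] at this
      exact this)
  exact ⟨Φ.trans Ψ, hΦ⟩

theorem corank_aux (X Y : Type) [TopologicalSpace X] [TopologicalSpace Y]
    [ChartedSpace R4 X] [ChartedSpace R4 Y] (hX1 : IsManifold (𝓡 4) ∞ X) (hX2 : T2Space X)
    (hX3 : CompactSpace X) (hY : IsManifold (𝓡 4) ∞ Y)
    (g : X ≃ₜ Y) (hg : Smooth g) (hr : ∀ x, 3 ≤ rank (der g x))
    (O : Set (X × Y)) (hO : IsOpen O) (hgO : GraphIn g O) :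
    ∃ Φ : Diffeomorph (𝓡 4) (𝓡 4) X Y ∞, GraphIn Φ O :=
  Pool.Agent.R765.corankOneClosed 3 X Y g hg hr O hO hgO

theorem cone_aux (X Y : Type) [TopologicalSpace X] [TopologicalSpace Y]
    [ChartedSpace R4 X] [ChartedSpace R4 Y] (hX1 : IsManifold (𝓡 4) ∞ X) (hX2 : T2Space X)
    (hX3 : CompactSpace X) (hY : IsManifold (𝓡 4) ∞ Y)
    (g : X ≃ₜ Y) (hg : ∀ x, LocDiff g x ∨ ConeMonotone g x)
    (O : Set (X × Y)) (hO : IsOpen O) (hgO : GraphIn g O) :
    ∃ Φ : Diffeomorph (𝓡 4) (𝓡 4) X Y ∞, GraphIn Φ O := by
  refine Pool.Agent.R765.coneMonotoneClosed 4 X Y g (fun x => ?_) O hO hgO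
  rcases hg x with h | ⟨A, B, h1, h2, h3, h4⟩
  · exact Or.inl h
  · exact Or.inr ⟨B, h3, A, h1, h2, h4⟩

theorem limit_of_tame {M N : Closed4} (g : M ≃ₜ N) (hg : Tame M N g) :
    LimitOfDiffeomorphisms M N g := by
  induction hg with
  | @corankOne M N g hs hr =>
    exact corank_aux M N M.smooth M.hausdorff M.compact N.smooth g hs hr
  | @coneMonotone M N g hc =>
    exact cone_aux M N M.smooth M.hausdorff M.compact N.smooth g hc
  | inverse g _ ih => exact limit_symm g ih
  | composition g h _ _ ih1 ih2 => exact limit_trans g h ih1 ih2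
  | limit g h h1 _ ih =>
    intro O hO hgO
    exact ih O hO hgO O hO (h1 O hO hgO)

theorem tame_of_diffeo {M N : Closed4} (Φ : Diffeomorph (𝓡 4) (𝓡 4) M N ∞) :
    Tame M N Φ.toHomeomorph := by
  refine Tame.coneMonotone _ fun x => Or.inl ?_
  exact Φ.isLocalDiffeomorph x

theorem tame_of_limit {M N : Closed4} (g : M ≃ₜ N) (hg : LimitOfDiffeomorphisms M N g) :
    Tame M N g := by
  classical
  refine Tame.limit g (fun O => if h : IsOpen O ∧ GraphIn g O then
    (Classical.choose (hg O h.1 h.2)).toHomeomorph else g) ?_ ?_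
  · intro O hO hgO
    rw [dif_pos ⟨hO, hgO⟩]
    exact Classical.choose_spec (hg O hO hgO)
  · intro O hO hgO
    rw [dif_pos ⟨hO, hgO⟩]
    exact tame_of_diffeo _

theorem result (M N : Closed4) (g : M ≃ₜ N) :
    (Tame M N g ↔ LimitOfDiffeomorphisms M N g) ∧
      (Tame M N g → Nonempty (Diffeomorph (𝓡 4) (𝓡 4) M N ∞)) := by
  refine ⟨⟨limit_of_tame g, tame_of_limit g⟩, fun hg => ?_⟩
  obtain ⟨Φ, -⟩ := limit_of_tame g hg univ isOpen_univ (fun _ => mem_univ _)
  exact ⟨Φ⟩

end Pool.Agent.Results.MP_cb9bff_gt.GeneratedClass
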