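import Pool.Agent.R769.TSAux

/-!
# Homeomorphisms of closed smooth 4-manifolds with three smooth linear coordinates

By Freedman, closed smooth simply connected 4-manifolds `M`, `N` with isomorphic intersection forms
are homeomorphic; the question is whether they are diffeomorphic. Let `h : M → N` be a homeomorphism
such that all points at which `h` is not a local diffeomorphism are mapped into the domain `V` of one
smooth chart `ψ` of `N` (an arbitrary open subset of `N` diffeomorphic to an open subset of `ℝ⁴`).
Suppose that near each of these points three linear coordinates of `ψ ∘ h` are smooth and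
independent; they depend on the point, and the remaining coordinate is only continuous. Then
`M` and `N` are diffeomorphic, by a diffeomorphism equal to `h` outside a compact subset of the
preimage of `V`.
-/

set_option autoImplicit false

open Set Filter Topology Function
open scoped Manifold ContDiff

namespace Pool.Agent.Results.MP_cb9bff_gt.ThreeSmoothCoordinates

/-- `ℝ⁴` -/
abbrev R4 : Type := EuclideanSpace ℝ (Fin 4)

section defs

variable {M N : Type} [TopologicalSpace M] [TopologicalSpace N] [ChartedSpace R4 M]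
  [ChartedSpace R4 N]

/-- `M` (a space with an atlas of charts with values in `ℝ⁴`) is a closed smooth 4-manifold -/
structure ClosedSmooth (M : Type) [TopologicalSpace M] [ChartedSpace R4 M] : Prop where
  smooth : IsManifold (𝓡 4) ∞ M
  hausdorff : T2Space M
  compact : CompactSpace M

/-- `f` is a local diffeomorphism (of class `C^∞`) at `x` -/
def LocDiff (f : M → N) (x : M) : Prop := IsLocalDiffeomorphAt (𝓡 4) (𝓡 4) ∞ f x

/-- `f` is a diffeomorphism (of class `C^∞`) -/
def IsDiffeo (f : M → N) : Prop := ∃ Φ : Diffeomorph (𝓡 4) (𝓡 4) M N ∞, ∀ x, Φ x = f x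

/-- `ψ` is a smooth chart with domain `V`: it restricts to a diffeomorphism of the open set `V` onto
an open subset of `ℝ⁴` -/
def IsChart (ψ : N → R4) (V : Set N) : Prop := IsOpen V ∧ InjOn ψ V ∧ ∀ y ∈ V, LocDiff ψ y

/-- near `x` three linear coordinates `P` of `f` agree with three linear coordinates `Q` of a smooth
chart `e`; that is, they are smooth near `x` with independent differentials at `x` -/
def ThreeSmooth (f : M → R4) (x : M) : Prop :=
  ∃ (P Q : R4 →L[ℝ] EuclideanSpace ℝ (Fin 3)) (e : M → R4), Surjective Q ∧ LocDiff e x ∧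
    ∀ᶠ y in 𝓝 x, P (f y) = Q (e y)

/-- `Φ` agrees with `h` outside a compact subset of the preimage of `V` -/
def AgreesOff (Φ h : M → N) (V : Set N) : Prop :=
  ∃ K : Set M, IsCompact K ∧ K ⊆ h ⁻¹' V ∧ ∀ x, x ∉ K → Φ x = h x

end defs

theorem result (M N : Type) [TopologicalSpace M] [TopologicalSpace N] [ChartedSpace R4 M]
    [ChartedSpace R4 N] (hM : ClosedSmooth M) (hN : ClosedSmooth N) (h : M ≃ₜ N)
    (V : Set N) (ψ : N → R4) (hψ : IsChart ψ V)
    (hc : ∀ x, ¬ LocDiff h x → h x ∈ V ∧ ThreeSmooth (fun y => ψ (h y)) x) :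
    ∃ Φ : M → N, IsDiffeo Φ ∧ AgreesOff Φ h V := by
  classical
  have := hM.smooth
  have := hM.hausdorff
  have := hM.compact
  have := hN.smooth
  rcases isEmpty_or_nonempty N with hNe | hNe
  · have hMe : IsEmpty M := h.toEquiv.isEmpty
    refine ⟨h, ⟨{ toEquiv := h.toEquiv
                  contMDiff_toFun := fun x => (hMe.false x).elim
                  contMDiff_invFun := fun x => (hNe.false x).elim }, fun x => rfl⟩, ∅,
      isCompact_empty, empty_subset _, fun x _ => rfl⟩
  obtain ⟨Ψ, hΨs, hΨ⟩ := Pool.Agent.R769.exists_pd (n := 4) V hψ.1 ψ hψ.2.1 hψ.2.2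
  subst hΨs
  obtain ⟨Φ, K, hK1, hK2, hK3⟩ := Pool.Agent.R769.TS.aux M N h Ψ (fun x hx => by
    obtain ⟨h1, P, Q, e, hQ, he, heq⟩ := hc x hx
    refine ⟨h1, Pool.Agent.R769.TS.threeSmooth_of_eq P Q e hQ he ?_⟩
    filter_upwards [heq] with y hy
    rw [hΨ]
    exact hy)
  exact ⟨Φ, ⟨Φ, fun _ => rfl⟩, K, hK1, hK2, hK3⟩

end Pool.Agent.Results.MP_cb9bff_gt.ThreeSmoothCoordinates
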